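import Pool.Agent.H67.HM.Stm2

/-!
# Crew HM2, part CRL
-/

set_option autoImplicit false

open Polynomial MeasureTheory Filter Topology

namespace HM

namespace CRL_aux

theorem tl_coeff (u : ℂ[X]) (k : ℤ) :
    (HM.tl u).coeff k = if 0 ≤ k then u.coeff k.toNat else 0 := by
  unfold HM.tl
  rw [Polynomial.toLaurent_apply, AddMonoidAlgebra.coeff_mapDomain]
  split_ifs with h
  · obtain ⟨n, rfl⟩ := Int.eq_ofNat_of_zero_le h
    have := Finsupp.mapDomain_apply (f := (Nat.cast : ℕ → ℤ)) Nat.cast_injective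
      u.toFinsupp.coeff n
    rw [this]
    rfl
  · apply Finsupp.mapDomain_notin_range
    rintro ⟨n, rfl⟩
    exact h (by positivity)

theorem rv_eq (u : ℂ[X]) : (HM.rv u).coeff =
    Finsupp.mapDomain (fun k : ℤ => -k) (HM.tl u).coeff := by
  unfold HM.rv dl sb
  rw [AddMonoidAlgebra.mapDomainRingHom_apply, AddMonoidAlgebra.coeff_mapDomain]
  congr 1
  funext k
  simp

theorem rv_coeff (u : ℂ[X]) (k : ℤ) :
    (HM.rv u).coeff k = if k ≤ 0 then u.coeff (-k).toNat else 0 := by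
  rw [rv_eq]
  have h := Finsupp.mapDomain_apply (f := fun k : ℤ => -k) neg_injective (HM.tl u).coeff (-k)
  simp only [neg_neg] at h
  rw [h, tl_coeff]
  simp

theorem Nn_rpow {G : Type} [AddCommGroup G] (r : ℝ) (hr : 1 ≤ r) (x : AddMonoidAlgebra ℂ G) :
    Nn r x ^ r = ∑ k ∈ x.coeff.support, ‖x.coeff k‖ ^ r := by
  unfold Nn
  have h0 : 0 ≤ ∑ k ∈ x.coeff.support, ‖x.coeff k‖ ^ r :=
    Finset.sum_nonneg fun k _ => Real.rpow_nonneg (norm_nonneg _) _
  rw [← Real.rpow_mul h0, one_div_mul_cancel (by linarith), Real.rpow_one]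

theorem tl_single (u : ℂ[X]) : HM.tl u =
    ∑ j ∈ u.support, AddMonoidAlgebra.single (j : ℤ) (u.coeff j) := by
  apply AddMonoidAlgebra.ext
  ext k
  rw [tl_coeff, AddMonoidAlgebra.coeff_sum, Finsupp.finset_sum_apply]
  simp only [AddMonoidAlgebra.coeff_single, Finsupp.single_apply]
  split_ifs with h
  · obtain ⟨n, rfl⟩ := Int.eq_ofNat_of_zero_le h
    simp only [Int.toNat_natCast, Nat.cast_inj]
    rw [Finset.sum_ite_eq' u.support n fun j => u.coeff j]
    split_ifs with h2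
    · rfl
    · simpa using h2
  · symm
    apply Finset.sum_eq_zero
    intro j _
    rw [if_neg]
    rintro rfl
    exact h (by positivity)

theorem cor_eq (A : ℂ[X]) (Y : RR) (k : ℕ) :
    HM.cor A (fun l : ℕ => Y.coeff (-(l : ℤ))) k = (HM.tl A * Y).coeff (-(k : ℤ)) := by
  unfold HM.cor
  rw [tl_single, Finset.sum_mul, AddMonoidAlgebra.coeff_sum, Finsupp.finset_sum_apply]
  refine Finset.sum_congr rfl fun j _ => ?_
  have : (AddMonoidAlgebra.single (j : ℤ) (A.coeff j) * Y).coeff (-(k : ℤ)) =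
      A.coeff j * Y.coeff (-(j : ℤ) + -(k : ℤ)) := by
    rw [AddMonoidAlgebra.coeff_single_mul_apply]
  rw [this]
  have h2 : (-((j + k : ℕ) : ℤ)) = -(j : ℤ) + -(k : ℤ) := by push_cast; ring
  have h3 : (-((k + j : ℕ) : ℤ)) = -(j : ℤ) + -(k : ℤ) := by push_cast; ring
  first
    | rw [h2]
    | rw [h3]
    | (simp only [h2])
    | (simp only [h3])

theorem rvn (u : ℂ[X]) (r : ℝ) : Nn r (HM.rv u) = Nn r (HM.tl u) := by
  unfold Nn
  congr 1
  rw [rv_eq, Finsupp.mapDomain_support_of_injective neg_injective,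
    Finset.sum_image (fun a _ b _ h => neg_injective h)]
  refine Finset.sum_congr rfl fun k _ => ?_
  have h := Finsupp.mapDomain_apply (f := fun k : ℤ => -k) neg_injective (HM.tl u).coeff k
  rw [h]

theorem sum_le_of_inj {G : Type} [AddCommGroup G] (x : AddMonoidAlgebra ℂ G) (r : ℝ)
    (hr : 1 ≤ r) (f : ℕ → G) (hf : Function.Injective f) (n : ℕ) :
    ∑ l ∈ Finset.range n, ‖x.coeff (f l)‖ ^ r ≤ ∑ k ∈ x.coeff.support, ‖x.coeff k‖ ^ r := by
  classical
  rw [← Finset.sum_image (s := Finset.range n) (g := f) (f := fun k => ‖x.coeff k‖ ^ r)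
    (fun a _ b _ h => hf h)]
  have h1 : ∑ k ∈ (Finset.range n).image f, ‖x.coeff k‖ ^ r =
      ∑ k ∈ ((Finset.range n).image f).filter (fun k => k ∈ x.coeff.support),
        ‖x.coeff k‖ ^ r := by
    rw [Finset.sum_filter]
    refine Finset.sum_congr rfl fun k _ => ?_
    split_ifs with h
    · rfl
    · rw [Finsupp.notMem_support_iff.1 h, norm_zero, Real.zero_rpow (by linarith)]
  rw [h1]
  refine Finset.sum_le_sum_of_subset_of_nonneg ?_ fun k _ _ => Real.rpow_nonneg (norm_nonneg _) _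
  intro k hk
  exact (Finset.mem_filter.1 hk).2

theorem bd (Y : RR) (r : ℝ) (hr : 1 ≤ r) :
    Bd r (fun l : ℕ => Y.coeff (-(l : ℤ))) (Nn r Y ^ r) := by
  intro n
  rw [Nn_rpow r hr]
  exact sum_le_of_inj Y r hr (fun l : ℕ => -(l : ℤ))
    (fun a b h => by simpa using h) n

theorem tl_support (u : ℂ[X]) : (HM.tl u).coeff.support =
    u.support.image (Nat.cast : ℕ → ℤ) := by
  ext k
  rw [Finsupp.mem_support_iff, tl_coeff, Finset.mem_image]
  split_ifs with h
  · obtain ⟨n, rfl⟩ := Int.eq_ofNat_of_zero_le h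
    simp
  · constructor
    · intro h'
      exact absurd rfl h'
    · rintro ⟨n, _, rfl⟩
      exact absurd (by positivity) h

theorem bdp (u : ℂ[X]) (r B : ℝ) (hr : 1 ≤ r) :
    Bd r u.coeff B ↔ Nn r (HM.tl u) ^ r ≤ B := by
  rw [Nn_rpow r hr, tl_support, Finset.sum_image (fun a _ b _ h => by exact_mod_cast h)]
  have h1 : ∀ n : ℕ, (HM.tl u).coeff (n : ℤ) = u.coeff n := by
    intro n
    rw [tl_coeff, if_pos (by positivity)]
    rfl
  simp only [h1]
  constructor
  · intro h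
    have h2 := h (u.natDegree + 1)
    refine le_trans ?_ h2
    refine Finset.sum_le_sum_of_subset_of_nonneg ?_
      fun k _ _ => Real.rpow_nonneg (norm_nonneg _) _
    intro k hk
    rw [Finset.mem_range]
    exact Nat.lt_succ_of_le (le_natDegree_of_mem_supp k hk)
  · intro h n
    refine le_trans ?_ h
    have h3 : ∑ k ∈ Finset.range n, ‖u.coeff k‖ ^ r =
        ∑ k ∈ (Finset.range n).filter (fun k => k ∈ u.support), ‖u.coeff k‖ ^ r := by
      rw [Finset.sum_filter]
      refine Finset.sum_congr rfl fun k _ => ?_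
      split_ifs with h
      · rfl
      · rw [notMem_support_iff.1 h, norm_zero, Real.zero_rpow (by linarith)]
    rw [h3]
    refine Finset.sum_le_sum_of_subset_of_nonneg ?_
      fun k _ _ => Real.rpow_nonneg (norm_nonneg _) _
    intro k hk
    exact (Finset.mem_filter.1 hk).2

theorem neg (Y : RR) : ∃ Z : RR, (∀ k, Z.coeff k = if k ≤ 0 then Y.coeff k else 0) ∧
    ∀ (r B : ℝ), 1 ≤ r → 0 ≤ B → Bd r (fun l : ℕ => Y.coeff (-(l : ℤ))) (B ^ r) → Nn r Z ≤ B := by
  classical
  refine ⟨AddMonoidAlgebra.ofCoeff (Y.coeff.filter fun k => k ≤ 0), ?_, ?_⟩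
  · intro k
    show (Y.coeff.filter fun k => k ≤ 0) k = _
    rw [Finsupp.filter_apply]
  · intro r B hr hB h
    have h1 : Nn r (AddMonoidAlgebra.ofCoeff (Y.coeff.filter fun k => k ≤ 0)) =
        (∑ k ∈ (Y.coeff.filter fun k => k ≤ 0).support,
          ‖(Y.coeff.filter fun k => k ≤ 0) k‖ ^ r) ^ (1 / r) := rfl
    rw [h1]
    have h2 : (∑ k ∈ (Y.coeff.filter fun k => k ≤ 0).support,
          ‖(Y.coeff.filter fun k => k ≤ 0) k‖ ^ r) ≤ B ^ r := by
      obtain ⟨n, hn⟩ : ∃ n : ℕ, ∀ k ∈ (Y.coeff.filter fun k => k ≤ 0).support,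
          (-k).toNat < n := by
        refine ⟨(Y.coeff.filter fun k => k ≤ 0).support.sup (fun k => (-k).toNat) + 1, ?_⟩
        intro k hk
        exact Nat.lt_succ_of_le (Finset.le_sup (f := fun k : ℤ => (-k).toNat) hk)
      refine le_trans ?_ (h n)
      have h3 : ∑ l ∈ Finset.range n, ‖Y.coeff (-(l : ℤ))‖ ^ r =
          ∑ k ∈ (Finset.range n).image (fun l : ℕ => -(l : ℤ)), ‖Y.coeff k‖ ^ r := by
        rw [Finset.sum_image]
        intro a _ b _ hab
        simpa using hab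
      rw [h3]
      have h4 : ∑ k ∈ (Y.coeff.filter fun k => k ≤ 0).support,
          ‖(Y.coeff.filter fun k => k ≤ 0) k‖ ^ r =
          ∑ k ∈ (Y.coeff.filter fun k => k ≤ 0).support, ‖Y.coeff k‖ ^ r := by
        refine Finset.sum_congr rfl fun k hk => ?_
        rw [Finsupp.support_filter, Finset.mem_filter] at hk
        rw [Finsupp.filter_apply, if_pos hk.2]
      rw [h4]
      refine Finset.sum_le_sum_of_subset_of_nonneg ?_
        fun k _ _ => Real.rpow_nonneg (norm_nonneg _) _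
      intro k hk
      have hk' := hk
      rw [Finsupp.support_filter, Finset.mem_filter] at hk'
      rw [Finset.mem_image]
      refine ⟨(-k).toNat, Finset.mem_range.2 (hn k hk), ?_⟩
      rw [Int.toNat_of_nonneg (by linarith [hk'.2])]
      ring
    have h5 : 0 ≤ ∑ k ∈ (Y.coeff.filter fun k => k ≤ 0).support,
          ‖(Y.coeff.filter fun k => k ≤ 0) k‖ ^ r :=
      Finset.sum_nonneg fun k _ => Real.rpow_nonneg (norm_nonneg _) _
    calc _ ≤ (B ^ r) ^ (1 / r) := Real.rpow_le_rpow h5 h2 (by positivity)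
      _ = B := by
        rw [← Real.rpow_mul hB, mul_one_div_cancel (by linarith), Real.rpow_one]

end CRL_aux

theorem CRL_proved : S_CRL where
  cor := CRL_aux.cor_eq
  rv := CRL_aux.rv_coeff
  tl := CRL_aux.tl_coeff
  rvn := CRL_aux.rvn
  bd := CRL_aux.bd
  bdp := CRL_aux.bdp
  neg := CRL_aux.neg

end HM
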